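import Pool.Agent.Helper44.KS.GoalsC

/-!
# The Kahn-Saks conjecture: FIL (all averages of the configuration fill the line with density one)
-/

namespace Pool.Agent.Helper95.KS

open MeasureTheory Filter Topology Set
open Pool.Agent.Helper44.KS
open scoped ENNReal ContDiff

noncomputable section

/-- The average of a coordinate with a density `ψ ≤ 2` is close to the mean position. -/
lemma avg_close {c : ℝ} (Z : KSys c) (ψ : (Fin Z.n → ℝ) → ℝ) (hm : Measurable ψ)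
    (hb : ∀ d, 0 ≤ ψ d ∧ ψ d ≤ 2) (h1 : ∫ d, ψ d ∂Z.μ = 1) (p : Fin Z.n) (hp : |Z.a p| ≤ Z.S) :
    |(∫ e, ψ e * e p ∂Z.μ) - Z.a p| ≤ 8 := by
  have hint : Integrable (fun d : Fin Z.n → ℝ => d p) Z.μ := Z.int p
  have hψb : ∀ d, ‖ψ d‖ ≤ 2 := fun d => by
    rw [Real.norm_eq_abs, abs_of_nonneg (hb d).1]; exact (hb d).2
  have hψi : Integrable ψ Z.μ :=
    (integrable_const (2 : ℝ)).mono' hm.aestronglyMeasurable (ae_of_all _ hψb)
  have hψp : Integrable (fun e : Fin Z.n → ℝ => ψ e * e p) Z.μ :=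
    hint.bdd_mul hm.aestronglyMeasurable (ae_of_all _ hψb)
  have hdiff : Integrable (fun e : Fin Z.n → ℝ => e p - Z.a p) Z.μ := hint.sub (integrable_const _)
  have hψd : Integrable (fun e : Fin Z.n → ℝ => ψ e * (e p - Z.a p)) Z.μ :=
    hdiff.bdd_mul hm.aestronglyMeasurable (ae_of_all _ hψb)
  have heq : (∫ e, ψ e * e p ∂Z.μ) - Z.a p = ∫ e, ψ e * (e p - Z.a p) ∂Z.μ := by
    have h2 : ∫ e, ψ e * (e p - Z.a p) ∂Z.μ
        = (∫ e, ψ e * e p ∂Z.μ) - ∫ e, ψ e * Z.a p ∂Z.μ := by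
      rw [← integral_sub hψp (hψi.mul_const _)]
      refine integral_congr_ae (ae_of_all _ fun e => ?_)
      simp only
      ring
    rw [h2, integral_mul_const, h1, one_mul]
  rw [heq]
  have hm1 := Z.m1 p hp
  calc |∫ e, ψ e * (e p - Z.a p) ∂Z.μ| ≤ ∫ e, |ψ e * (e p - Z.a p)| ∂Z.μ :=
        abs_integral_le_integral_abs
    _ ≤ ∫ e, 2 * |e p - Z.a p| ∂Z.μ := by
        refine integral_mono hψd.abs (hdiff.abs.const_mul 2) fun e => ?_
        simp only
        rw [abs_mul, abs_of_nonneg (hb e).1]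
        exact mul_le_mul_of_nonneg_right (hb e).2 (abs_nonneg _)
    _ = 2 * ∫ e, |e p - Z.a p| ∂Z.μ := integral_const_mul _ _
    _ ≤ 8 := by
        have : ∫ e, |e p - Z.a p| ∂Z.μ ≤ 4 := hm1
        linarith

/-- FIL: `S_FIL` from ATT, FAR and DET. -/
theorem s_fil (hATT : S_ATT) (hFAR : S_FAR) (hDET : S_DET) : S_FIL := by
  intro c hc Z hS hF ψ hm hb h1 G hG hGc
  have hGcont : Continuous G := hG.continuous
  obtain ⟨L, hL⟩ := (hG.of_le (m := 1) (by exact_mod_cast le_top)).lipschitzWith_of_hasCompactSupport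
    hGc (by norm_num)
  obtain ⟨B, hB⟩ := hGcont.bounded_above_of_compact_support hGc
  obtain ⟨C0, hC0⟩ := hGc.isCompact.isBounded.subset_closedBall (0 : ℝ)
  have hC : ∀ y : ℝ, max C0 1 < |y| → G y = 0 := by
    intro y hy
    by_contra hne
    have hmem : y ∈ tsupport G := subset_tsupport _ (by simpa [Function.mem_support] using hne)
    have := hC0 hmem
    rw [Metric.mem_closedBall, dist_zero_right, Real.norm_eq_abs] at this
    exact absurd (lt_of_le_of_lt (le_max_left _ _) hy) (not_lt.mpr this)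
  have hCpos : 0 < max C0 1 := lt_of_lt_of_le one_pos (le_max_right _ _)
  obtain ⟨K, hK, hDK⟩ := hDET G L (max C0 1) B L.coe_nonneg hCpos
    (fun y z => by simpa [Real.dist_eq] using hL.dist_le_mul y z)
    (fun y => by simpa [Real.norm_eq_abs] using hB y) hC
  rw [Metric.tendsto_atTop]
  intro ε hε
  set ρ : ℝ := min 1 (ε / (4 * K)) with hρdef
  have hρ : 0 < ρ := lt_min one_pos (by positivity)
  have hρ1 : ρ ≤ 1 := min_le_left _ _
  have hKρ : K * ρ ≤ ε / 4 := by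
    have : ρ ≤ ε / (4 * K) := min_le_right _ _
    calc K * ρ ≤ K * (ε / (4 * K)) := mul_le_mul_of_nonneg_left this hK.le
      _ = ε / 4 := by field_simp
  obtain ⟨κ, hκ, hATTκ⟩ := hATT c ρ hc hρ
  have hA := (hF G hGcont hGc (ε / 2) (by linarith)).eventually (gt_mem_nhds (half_pos hκ))
  have hB' := (hFAR c Z hS (max C0 1)).eventually (gt_mem_nhds (half_pos hκ))
  obtain ⟨N0, hN0⟩ := eventually_atTop.mp (hA.and hB')
  refine ⟨N0, fun N hN => ?_⟩
  obtain ⟨hAN, hBN⟩ := hN0 N hN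
  have hball := hATTκ (Z N) (ψ N) (hm N) (hb N) (h1 N)
  obtain ⟨d, hd1, hd2, hd3⟩ : ∃ d : Fin (Z N).n → ℝ,
      (Z N).nq (fun p => d p - ∫ e, ψ N e * e p ∂(Z N).μ) < ρ ^ 2 ∧
      ¬ (ε / 2 < |(∑ p, G (d p)) / (Z N).S - ∫ y, G y|) ∧
      ¬ (∃ p, (Z N).S < |(Z N).a p| ∧ |d p| ≤ max C0 1) := by
    by_contra hcon
    push Not at hcon
    have hsub : {d : Fin (Z N).n → ℝ | (Z N).nq (fun p => d p - ∫ e, ψ N e * e p ∂(Z N).μ) < ρ ^ 2} ⊆
        {d | ε / 2 < |(∑ p, G (d p)) / (Z N).S - ∫ y, G y|} ∪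
        {d | ∃ p, (Z N).S < |(Z N).a p| ∧ |d p| ≤ max C0 1} := by
      intro d hd
      by_cases h : ε / 2 < |(∑ p, G (d p)) / (Z N).S - ∫ y, G y|
      · exact Or.inl h
      · exact Or.inr (hcon d hd (not_lt.mp h))
    have hle := (measureReal_mono (μ := (Z N).μ) hsub (measure_ne_top _ _)).trans
      (measureReal_union_le _ _)
    linarith
  have hfin := hDK c (Z N) (fun p => ∫ e, ψ N e * e p ∂(Z N).μ) d ρ hρ hρ1
    (fun p hp => avg_close (Z N) (ψ N) (hm N) (hb N) (h1 N) p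
      (by simpa [KSys.W] using hp))
    (fun p hp => by
      by_contra hcon
      exact hd3 ⟨p, hp, not_lt.mp hcon⟩) hd1
  rw [Real.dist_eq]
  have htri : |(∑ p ∈ (Z N).W (Z N).S, G (∫ e, ψ N e * e p ∂(Z N).μ)) / (Z N).S - ∫ y, G y| ≤
      |(∑ p ∈ (Z N).W (Z N).S, G (∫ e, ψ N e * e p ∂(Z N).μ)) / (Z N).S
        - (∑ p, G (d p)) / (Z N).S| + |(∑ p, G (d p)) / (Z N).S - ∫ y, G y| := abs_sub_le _ _ _
  have h4 := not_lt.mp hd2
  linarith

end

end Pool.Agent.Helper95.KS
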