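import Pool.Agent.Helper89.KS.Goals
import Pool.Agent.Helper12.GP.MST
import Pool.Agent.Helper96.GP.PEEL

/-!
# The Kahn-Saks conjecture: LWA (the increments in the chamber of the identity)
-/

namespace Pool.Agent.Helper95.KS

open Finset MeasureTheory Pool.Agent.Helper89.GP Pool.Agent.Helper89.KS
open scoped ENNReal

noncomputable section

/-- The exponential law is a probability measure. -/
lemma prob_ex1 : IsProbabilityMeasure ex1 := by
  constructor
  unfold ex1
  rw [withDensity_apply _ MeasurableSet.univ, Measure.restrict_univ]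
  exact Pool.Agent.Helper12.GP.lintegral_exp_neg

/-- The partial sums of a vector with one more entry in front. -/
lemma ps_cons {n : ℕ} (r : ℝ) (y : Fin n → ℝ) :
    ps (Fin.cons r y : Fin (n + 1) → ℝ) = Fin.cons r (fun i => r + ps y i) := by
  funext i
  refine Fin.cases ?_ (fun j => ?_) i
  · unfold ps
    rw [Fin.sum_univ_succ]
    simp
  · unfold ps
    rw [Fin.sum_univ_succ]
    simp

lemma measurable_ps {n : ℕ} : Measurable (ps : (Fin n → ℝ) → Fin n → ℝ) := by
  refine measurable_pi_lambda _ fun i => ?_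
  unfold ps
  refine Finset.measurable_sum _ fun j _ => ?_
  by_cases h : j ≤ i
  · simpa [h] using measurable_pi_apply j
  · simp [h]

lemma measurable_sup {n : ℕ} :
    Measurable fun x : Fin n → ℝ => ENNReal.ofReal (Real.exp (-⨆ a, x a)) := by
  refine ENNReal.measurable_ofReal.comp (Real.measurable_exp.comp (Measurable.neg ?_))
  exact Measurable.iSup fun i => measurable_pi_apply i

lemma measurable_cons {n : ℕ} (r : ℝ) :
    Measurable fun y : Fin n → ℝ => (Fin.cons r (fun i => r + y i) : Fin (n + 1) → ℝ) := by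
  refine measurable_pi_lambda _ fun i => ?_
  refine Fin.cases ?_ (fun j => ?_) i
  · simp
  · simp only [Fin.cons_succ]
    fun_prop

/-- LWA. -/
theorem lwa : LwaStmt := by
  intro n
  induction n with
  | zero =>
    intro Φ _
    have h : Ch (1 : Equiv.Perm (Fin 0)) = Set.univ := by
      unfold Ch
      ext x
      simp only [Set.mem_ofPred_eq, Set.mem_univ, iff_true]
      exact ⟨fun a => a.elim0, fun a => a.elim0⟩
    rw [h, Measure.restrict_univ, lintegral_unique, lintegral_unique]
    have h1 : (volume : Measure (Fin 0 → ℝ)) Set.univ = 1 := by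
      rw [volume_pi, Measure.pi_empty_univ]
    have h2 : (En 0) Set.univ = 1 := by
      unfold En
      rw [Measure.pi_empty_univ]
    rw [h1, h2, Real.iSup_of_isEmpty, neg_zero, Real.exp_zero, ENNReal.ofReal_one, mul_one]
    congr 2
    exact Subsingleton.elim _ _
  | succ n ih =>
    intro Φ hΦ
    have := prob_ex1
    have hm : Measurable fun x : Fin (n + 1) → ℝ => Φ x * ENNReal.ofReal (Real.exp (-⨆ a, x a)) :=
      hΦ.mul measurable_sup
    rw [Pool.Agent.Helper96.GP.peel n _ hm]
    -- the left side
    have h1 : ∀ r ∈ Set.Ioi (0 : ℝ), ∫⁻ y in Ch (1 : Equiv.Perm (Fin n)),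
        Φ (Fin.cons r fun i => r + y i) * ENNReal.ofReal
          (Real.exp (-⨆ a, (Fin.cons r fun i => r + y i : Fin (n + 1) → ℝ) a)) =
        ENNReal.ofReal (Real.exp (-r)) *
          ∫⁻ e, Φ (Fin.cons r fun i => r + ps e i) ∂En n := by
      intro r hr
      rw [← ih (fun y => Φ (Fin.cons r fun i => r + y i)) (hΦ.comp (measurable_cons r)),
        ← lintegral_const_mul' _ _ ENNReal.ofReal_ne_top]
      refine setLIntegral_congr_fun (Pool.Agent.Helper12.GP.measurableSet_Ch _) fun y hy => ?_
      rw [Pool.Agent.Helper12.GP.iSup_cons hr hy.1, neg_add, Real.exp_add,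
        ENNReal.ofReal_mul (Real.exp_pos _).le]
      ring
    rw [setLIntegral_congr_fun measurableSet_Ioi h1]
    -- the right side
    have e := measurePreserving_piFinSuccAbove (fun _ : Fin (n + 1) => ex1) 0
    have hF : Measurable fun e : Fin (n + 1) → ℝ => Φ (ps e) := hΦ.comp measurable_ps
    have h2 : ∫⁻ x, Φ (ps x) ∂En (n + 1) = ∫⁻ p : ℝ × (Fin n → ℝ),
        Φ (ps ((MeasurableEquiv.piFinSuccAbove (fun _ : Fin (n + 1) => ℝ) 0).symm p))
          ∂(ex1.prod (En n)) :=
      (e.symm.lintegral_comp_emb (MeasurableEquiv.measurableEmbedding _)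
        (fun x => Φ (ps x))).symm
    have h3 : ∀ p : ℝ × (Fin n → ℝ),
        (MeasurableEquiv.piFinSuccAbove (fun _ : Fin (n + 1) => ℝ) 0).symm p =
          (Fin.cons p.1 p.2 : Fin (n + 1) → ℝ) := by
      intro p
      ext i
      refine Fin.cases ?_ (fun j => ?_) i
      · simp [MeasurableEquiv.piFinSuccAbove, Fin.insertNthEquiv]
      · simp [MeasurableEquiv.piFinSuccAbove, Fin.insertNthEquiv]
    have : SFinite (En n) := by unfold En; infer_instance
    rw [h2, lintegral_prod (fun p : ℝ × (Fin n → ℝ) =>
      Φ (ps ((MeasurableEquiv.piFinSuccAbove (fun _ : Fin (n + 1) => ℝ) 0).symm p)))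
      (hF.comp (MeasurableEquiv.measurable _)).aemeasurable]
    simp_rw [h3, ps_cons]
    unfold ex1
    rw [lintegral_withDensity_eq_lintegral_mul_non_measurable _
      (by fun_prop) (Filter.Eventually.of_forall fun r => ENNReal.ofReal_lt_top)]
    rfl

end

end Pool.Agent.Helper95.KS
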