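import Pool.Agent.Helper42.KS.Goals

set_option autoImplicit false

namespace Pool.Agent.Helper42.KS.PkSSP

open Finset

lemma ee_add (s t : ℝ) : ee (s + t) = ee s * ee t := by
  unfold ee; rw [← Complex.exp_add]; congr 1; push_cast; ring

lemma ee_int (m : ℤ) : ee m = 1 := by
  unfold ee
  rw [Complex.exp_eq_one_iff]
  exact ⟨m, by push_cast; ring⟩

lemma ee_add_int (t : ℝ) (m : ℤ) : ee (t + m) = ee t := by
  rw [ee_add, ee_int, mul_one]

lemma std_eq {N : ℕ} [NeZero N] (m : ℤ) : ZMod.stdAddChar (m : ZMod N) = ee ((m : ℝ) / N) := by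
  rw [ZMod.stdAddChar_coe]
  unfold ee
  congr 1; push_cast; ring

/-- sums over `ZMod N` -/
lemma sum_zmod {N : ℕ} [NeZero N] (g : ZMod N → ℂ) :
    ∑ x : ZMod N, g x = ∑ y ∈ range N, g (y : ZMod N) := by
  refine Finset.sum_nbij' (fun x => x.val) (fun y => (y : ZMod N)) ?_ ?_ ?_ ?_ ?_
  · intro x _; exact mem_range.2 (ZMod.val_lt x)
  · intro y _; exact mem_univ _
  · intro x _; exact ZMod.natCast_zmod_val x
  · intro y hy; exact ZMod.val_cast_of_lt (mem_range.1 hy)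
  · intro x _; rw [ZMod.natCast_zmod_val x]

lemma sum_Icc {N : ℕ} [NeZero N] (g : ZMod N → ℂ) :
    ∑ x : ZMod N, g x = ∑ y ∈ Icc 1 N, g (y : ZMod N) := by
  rw [sum_zmod, Finset.range_eq_Ico]
  have hN : 1 ≤ N := NeZero.one_le
  have h1 : Ico 0 N = insert 0 (Ico 1 N) := by
    ext y; simp only [mem_Ico, mem_insert]; omega
  have h2 : Icc 1 N = insert N (Ico 1 N) := by
    ext y; simp only [mem_Ico, mem_Icc, mem_insert]; omega
  rw [h1, h2, Finset.sum_insert (by simp), Finset.sum_insert (by simp)]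
  simp

/-- periodic sums -/
lemma sum_period (g : ℕ → ℂ) (m p : ℕ) (hg : ∀ y, g (y + m) = g y) :
    ∑ y ∈ range (p * m), g y = p * ∑ y ∈ range m, g y := by
  have hg' : ∀ c y, g (y + c * m) = g y := by
    intro c
    induction c with
    | zero => intro y; simp
    | succ c ih => intro y; rw [Nat.succ_mul, ← add_assoc, hg, ih]
  induction p with
  | zero => simp
  | succ p ih =>
    rw [Nat.succ_mul, Finset.sum_range_add, ih]
    have : ∑ x ∈ range m, g (p * m + x) = ∑ x ∈ range m, g x := by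
      refine Finset.sum_congr rfl fun x _ => ?_
      rw [add_comm, hg']
    rw [this]; push_cast; ring

lemma GG_scale (k : ℕ) (p : ℕ) (hp : p.Prime) (a j : ℕ) :
    GG k ((p * a : ℕ) : ℤ) (p ^ (j + 1)) 0 = GG k (a : ℤ) (p ^ j) 0 := by
  have hp0 : (p : ℝ) ≠ 0 := by exact_mod_cast hp.ne_zero
  have hpj : ((p : ℝ) ^ j) ≠ 0 := pow_ne_zero _ hp0
  have hp0' : (p : ℂ) ≠ 0 := by exact_mod_cast hp.ne_zero
  unfold GG
  have h1 : ∀ y : ℕ, ee ((((p * a : ℕ) : ℤ) * (y : ℝ) ^ k + ((0 : ℤ) : ℝ) * y) / ((p ^ (j + 1) : ℕ) : ℝ)) =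
      ee ((((a : ℕ) : ℤ) * (y : ℝ) ^ k + ((0 : ℤ) : ℝ) * y) / ((p ^ j : ℕ) : ℝ)) := by
    intro y
    congr 1
    push_cast
    rw [pow_succ]
    field_simp
    ring
  rw [Finset.sum_congr rfl fun y _ => h1 y]
  rw [show p ^ (j + 1) = p * p ^ j from by ring, sum_period]
  · push_cast
    field_simp
  · intro y
    have hdvd : ((p ^ j : ℕ) : ℤ) ∣ ((y + p ^ j : ℕ) : ℤ) ^ k - (y : ℤ) ^ k := by
      refine dvd_trans ?_ (sub_dvd_pow_sub_pow _ _ _)
      push_cast
      simp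
    obtain ⟨c, hc⟩ := hdvd
    rw [← ee_add_int (((((a : ℕ) : ℤ) : ℝ) * (y : ℝ) ^ k + ((0 : ℤ) : ℝ) * y) / ((p ^ j : ℕ) : ℝ)) (a * c)]
    congr 1
    have hc' : (((y + p ^ j : ℕ) : ℝ)) ^ k = (y : ℝ) ^ k + ((p ^ j : ℕ) : ℝ) * c := by
      have : ((((y + p ^ j : ℕ) : ℤ) ^ k - (y : ℤ) ^ k : ℤ) : ℝ) = (((p ^ j : ℕ) : ℤ) * c : ℤ) := by
        rw [hc]
      push_cast at this ⊢
      linarith
    rw [hc']
    push_cast
    field_simp
    ring

/-- grouping by the power of `p` -/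
lemma group (p : ℕ) (hp : p.Prime) (f : ℕ → ℕ → ℂ) (hf : ∀ a j, f (p * a) (j + 1) = f a j)
    (J : ℕ) : ∑ t ∈ Icc 1 (p ^ J), f t J =
      ∑ j ∈ range (J + 1), ∑ a ∈ (Icc 1 (p ^ j)).filter (fun a => Nat.Coprime a (p ^ j)), f a j := by
  induction J with
  | zero => simp
  | succ J ih =>
    rw [Finset.sum_range_succ, ← ih,
      add_comm (∑ t ∈ Icc 1 (p ^ J), f t J),
      ← Finset.sum_filter_add_sum_filter_not (Icc 1 (p ^ (J + 1)))
        (fun a => Nat.Coprime a (p ^ (J + 1)))]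
    congr 1
    symm
    refine Finset.sum_nbij' (fun s => p * s) (fun t => t / p) ?_ ?_ ?_ ?_ ?_
    · intro s hs
      rw [mem_Icc] at hs
      rw [mem_filter, mem_Icc]
      refine ⟨⟨?_, ?_⟩, ?_⟩
      · exact Nat.mul_pos hp.pos hs.1
      · rw [pow_succ, mul_comm p]; exact Nat.mul_le_mul_right _ hs.2
      · intro h
        have h2 : Nat.Coprime (p * s) p := Nat.Coprime.coprime_dvd_right (dvd_pow_self p (by omega)) h
        have h3 := Nat.Coprime.coprime_dvd_left (dvd_mul_right p s) h2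
        rw [Nat.coprime_self] at h3
        exact hp.one_lt.ne' h3
    · intro t ht
      rw [mem_filter, mem_Icc] at ht
      obtain ⟨⟨h1, h2⟩, h3⟩ := ht
      have hd : p ∣ t := by
        by_contra hnd
        exact h3 (Nat.Coprime.pow_right _ ((Nat.Prime.coprime_iff_not_dvd hp).2 hnd).symm)
      obtain ⟨s, rfl⟩ := hd
      rw [mem_Icc, Nat.mul_div_cancel_left _ hp.pos]
      refine ⟨?_, ?_⟩
      · rcases Nat.eq_zero_or_pos s with rfl | h
        · simp at h1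
        · exact h
      · rw [pow_succ, mul_comm p] at h2
        exact Nat.le_of_mul_le_mul_right h2 hp.pos
    · intro s _
      exact Nat.mul_div_cancel_left _ hp.pos
    · intro t ht
      rw [mem_filter, mem_Icc] at ht
      obtain ⟨⟨h1, h2⟩, h3⟩ := ht
      have hd : p ∣ t := by
        by_contra hnd
        exact h3 (Nat.Coprime.pow_right _ ((Nat.Prime.coprime_iff_not_dvd hp).2 hnd).symm)
      exact Nat.mul_div_cancel' hd
    · intro s _
      exact (hf s J).symm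

lemma inner {N : ℕ} [NeZero N] (k t : ℕ) :
    ∑ x : ZMod N, (ZMod.stdAddChar ((t : ZMod N) * x ^ k) : ℂ) = N * GG k t N 0 := by
  have hN : (N : ℂ) ≠ 0 := by exact_mod_cast NeZero.ne N
  unfold GG
  rw [← mul_assoc, mul_inv_cancel₀ hN, one_mul, sum_zmod]
  refine Finset.sum_congr rfl fun y _ => ?_
  have := std_eq (N := N) ((t : ℤ) * (y : ℤ) ^ k)
  push_cast at this
  rw [this]
  congr 1
  push_cast
  ring

lemma count {N : ℕ} [NeZero N] (k d n : ℕ) :
    (N : ℂ) * (Nat.card {x : Fin d → ZMod N // ∑ i, x i ^ k = (n : ZMod N)} : ℂ) =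
      (N : ℂ) ^ d * ∑ t ∈ Icc 1 N, (GG k t N 0) ^ d * ee (-((t : ℝ) * n / N)) := by
  classical
  have hprim : (ZMod.stdAddChar (N := N)).IsPrimitive := ZMod.isPrimitive_stdAddChar N
  have h1 : (Nat.card {x : Fin d → ZMod N // ∑ i, x i ^ k = (n : ZMod N)} : ℂ) =
      ∑ x : Fin d → ZMod N, if ∑ i, x i ^ k - (n : ZMod N) = 0 then (1 : ℂ) else 0 := by
    rw [Nat.card_eq_fintype_card, Fintype.card_subtype, Finset.sum_ite]
    simp [sub_eq_zero]
  have h2 : ∀ x : Fin d → ZMod N, (N : ℂ) * (if ∑ i, x i ^ k - (n : ZMod N) = 0 then (1 : ℂ) else 0) =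
      ∑ t : ZMod N, (ZMod.stdAddChar (t * (∑ i, x i ^ k - (n : ZMod N))) : ℂ) := by
    intro x
    rw [AddChar.sum_mulShift _ hprim]
    simp [ZMod.card]
  rw [h1, Finset.mul_sum, Finset.sum_congr rfl fun x _ => h2 x, Finset.sum_comm, sum_Icc,
    Finset.mul_sum]
  refine Finset.sum_congr rfl fun t _ => ?_
  have h3 : ∀ x : Fin d → ZMod N,
      (ZMod.stdAddChar ((t : ZMod N) * (∑ i, x i ^ k - (n : ZMod N))) : ℂ) =
      ZMod.stdAddChar (-((t : ZMod N) * (n : ZMod N))) *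
        ∏ i, ZMod.stdAddChar ((t : ZMod N) * x i ^ k) := by
    intro x
    have hs : ∀ s : Finset (Fin d), (ZMod.stdAddChar (∑ i ∈ s, (t : ZMod N) * x i ^ k) : ℂ) =
        ∏ i ∈ s, ZMod.stdAddChar ((t : ZMod N) * x i ^ k) := by
      intro s
      induction s using Finset.induction_on with
      | empty => simp
      | insert a s ha ih =>
        rw [Finset.sum_insert ha, Finset.prod_insert ha, AddChar.map_add_eq_mul, ih]
    rw [← hs, ← AddChar.map_add_eq_mul, ← Finset.mul_sum]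
    congr 1
    ring
  rw [Finset.sum_congr rfl fun x _ => h3 x, ← Finset.mul_sum]
  rw [← Fintype.piFinset_univ, Finset.sum_prod_piFinset (Finset.univ)
    (fun (_ : Fin d) (y : ZMod N) => (ZMod.stdAddChar ((t : ZMod N) * y ^ k) : ℂ))]
  rw [Finset.prod_const, inner, Finset.card_univ, Fintype.card_fin, mul_pow]
  have h4 := std_eq (N := N) (-((t : ℤ) * (n : ℤ)))
  push_cast at h4
  rw [h4, show -((t : ℝ) * n) / N = -((t : ℝ) * n / N) from by ring]
  ring

theorem thm : G_SSP := by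
  intro k d n p J hd hp
  have : NeZero (p ^ J) := ⟨pow_ne_zero _ hp.ne_zero⟩
  have hp0 : (p : ℂ) ≠ 0 := by exact_mod_cast hp.ne_zero
  have hpR : (p : ℝ) ≠ 0 := by exact_mod_cast hp.ne_zero
  have hc := count (N := p ^ J) k d n
  have hg := group p hp (fun a j => (GG k a (p ^ j) 0) ^ d * ee (-((a : ℝ) * n / (p ^ j : ℕ)))) (by
    intro a j
    have h := GG_scale k p hp a j
    show (GG k ((p * a : ℕ) : ℤ) (p ^ (j + 1)) 0) ^ d * _ = _
    rw [h]
    congr 2
    push_cast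
    rw [pow_succ]
    field_simp) J
  rw [hg] at hc
  have hA : ∑ j ∈ range (J + 1), As k d (p ^ j) n = ∑ j ∈ range (J + 1),
      ∑ a ∈ (Icc 1 (p ^ j)).filter (fun a => Nat.Coprime a (p ^ j)),
        (GG k a (p ^ j) 0) ^ d * ee (-((a : ℝ) * n / (p ^ j : ℕ))) := by
    refine Finset.sum_congr rfl fun j _ => ?_
    rfl
  rw [hA, eq_div_iff (pow_ne_zero _ hp0)]
  obtain ⟨e, rfl⟩ : ∃ e, d = e + 1 := ⟨d - 1, by omega⟩
  have hne : ((p ^ J : ℕ) : ℂ) ≠ 0 := by exact_mod_cast NeZero.ne (p ^ J)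
  apply mul_left_cancel₀ hne
  rw [hc]
  push_cast
  rw [pow_succ, pow_mul]
  ring

end Pool.Agent.Helper42.KS.PkSSP
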